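import Pool.Agent.Helper49.RU.St

/-!
Project RU (MP_a60174_an): Khintchine inequality, upper half.
-/

set_option autoImplicit false

namespace Pool.Agent.Helper26.RU

open Pool.Agent.Helper49.RU
open MeasureTheory Filter Topology Complex
open scoped ENNReal Cardinal ComplexConjugate

theorem rad_cases (n : ℕ) (x : ℝ) : rad n x = 1 ∨ rad n x = -1 := by
  unfold rad
  rcases Int.even_or_odd ⌊(2 : ℝ) ^ (n + 1) * x⌋ with h | h
  · left; exact h.neg_one_zpow
  · right; exact h.neg_one_zpow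

theorem rad_meas (n : ℕ) : Measurable (rad n) := by
  unfold rad
  exact (measurable_of_countable (fun k : ℤ => (-1 : ℝ) ^ k)).comp
    ((measurable_const.mul measurable_id).floor)

instance probI : IsProbabilityMeasure mI := by
  constructor
  simp [mI]

theorem exp_rad (n : ℕ) (x a : ℝ) :
    Real.exp (a * rad n x) = rad n x * Real.sinh a + Real.cosh a := by
  rcases rad_cases n x with h | h
  · rw [h, mul_one, one_mul]
    exact (Real.sinh_add_cosh a).symm
  · rw [h, Real.sinh_eq, Real.cosh_eq]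
    rw [show a * -1 = -a by ring]
    ring

theorem abs_rad (n : ℕ) (x : ℝ) : |rad n x| = 1 := by
  rcases rad_cases n x with h | h <;> rw [h] <;> simp

theorem prod_int (F : Finset ℕ) : Integrable (fun x => ∏ n ∈ F, rad n x) mI := by
  apply Integrable.of_bound (C := 1)
  · exact (Finset.measurable_prod F (fun n _ => rad_meas n)).aestronglyMeasurable
  · filter_upwards with x
    rw [Real.norm_eq_abs, Finset.abs_prod]
    rw [Finset.prod_congr rfl (fun n _ => abs_rad n x)]
    simp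

theorem exp_sum (F : Finset ℕ) (a : ℕ → ℝ) (x : ℝ) :
    Real.exp (∑ n ∈ F, a n * rad n x) =
      ∑ t ∈ F.powerset, ((∏ n ∈ t, Real.sinh (a n)) * ∏ n ∈ F \ t, Real.cosh (a n)) *
        ∏ n ∈ t, rad n x := by
  rw [Real.exp_sum, Finset.prod_congr rfl (fun n _ => exp_rad n x (a n)), Finset.prod_add]
  apply Finset.sum_congr rfl
  intro t _
  rw [Finset.prod_mul_distrib]
  ring

theorem exp_integrable (F : Finset ℕ) (a : ℕ → ℝ) :
    Integrable (fun x => Real.exp (∑ n ∈ F, a n * rad n x)) mI := by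
  simp only [exp_sum]
  apply integrable_finset_sum
  intro t _
  exact (prod_int t).const_mul _

theorem exp_integral (hWAL : StWAL) (F : Finset ℕ) (a : ℕ → ℝ) :
    ∫ x, Real.exp (∑ n ∈ F, a n * rad n x) ∂mI = ∏ n ∈ F, Real.cosh (a n) := by
  simp only [exp_sum]
  rw [integral_finset_sum _ (fun t _ => (prod_int t).const_mul _)]
  rw [Finset.sum_eq_single ∅]
  · simp
  · intro t _ ht
    rw [integral_const_mul, hWAL t (Finset.nonempty_iff_ne_empty.mpr ht), mul_zero]
  · intro h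
    exact absurd (Finset.empty_mem_powerset F) h

theorem exp_integral_le (hWAL : StWAL) (F : Finset ℕ) (a : ℕ → ℝ)
    (ha : ∑ n ∈ F, a n ^ 2 ≤ 1) :
    ∫ x, Real.exp (∑ n ∈ F, a n * rad n x) ∂mI ≤ Real.exp (1 / 2) := by
  rw [exp_integral hWAL]
  calc ∏ n ∈ F, Real.cosh (a n) ≤ ∏ n ∈ F, Real.exp (a n ^ 2 / 2) := by
        apply Finset.prod_le_prod
        · intro n _
          exact (Real.cosh_pos _).le
        · intro n _
          exact Real.cosh_le_exp_half_sq _
    _ = Real.exp (∑ n ∈ F, a n ^ 2 / 2) := by rw [Real.exp_sum]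
    _ ≤ Real.exp (1 / 2) := by
        apply Real.exp_le_exp.mpr
        rw [← Finset.sum_div]
        linarith

theorem sum_meas (F : Finset ℕ) (a : ℕ → ℝ) :
    Measurable (fun x => ∑ n ∈ F, a n * rad n x) :=
  Finset.measurable_sum F (fun n _ => (rad_meas n).const_mul (a n))

theorem pow_le (m : ℕ) (s : ℝ) :
    |s| ^ m ≤ (m.factorial : ℝ) * (Real.exp s + Real.exp (-s)) := by
  have h1 := Real.pow_div_factorial_le_exp |s| (abs_nonneg s) m
  have hm : (0 : ℝ) < m.factorial := by exact_mod_cast Nat.factorial_pos m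
  rw [div_le_iff₀ hm] at h1
  have h2 : Real.exp |s| ≤ Real.exp s + Real.exp (-s) := by
    rcases abs_cases s with ⟨h, _⟩ | ⟨h, _⟩
    · rw [h]; linarith [Real.exp_pos (-s)]
    · rw [h]; linarith [Real.exp_pos s]
  calc |s| ^ m ≤ Real.exp |s| * (m.factorial : ℝ) := h1
    _ ≤ (Real.exp s + Real.exp (-s)) * (m.factorial : ℝ) :=
        mul_le_mul_of_nonneg_right h2 hm.le
    _ = _ := by ring

theorem lin_le (hWAL : StWAL) (m : ℕ) (F : Finset ℕ) (a : ℕ → ℝ)
    (ha : ∑ n ∈ F, a n ^ 2 ≤ 1) :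
    ∫⁻ x, ‖∑ n ∈ F, a n * rad n x‖ₑ ^ (m : ℝ) ∂mI ≤
      ENNReal.ofReal ((m.factorial : ℝ) * (2 * Real.exp (1 / 2))) := by
  have hneg : ∀ x, -(∑ n ∈ F, a n * rad n x) = ∑ n ∈ F, (-a n) * rad n x := by
    intro x
    rw [← Finset.sum_neg_distrib]
    exact Finset.sum_congr rfl (fun n _ => by ring)
  have hint : Integrable (fun x => (m.factorial : ℝ) *
      (Real.exp (∑ n ∈ F, a n * rad n x) + Real.exp (∑ n ∈ F, (-a n) * rad n x))) mI :=
    ((exp_integrable F a).add (exp_integrable F (fun n => -a n))).const_mul _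
  calc ∫⁻ x, ‖∑ n ∈ F, a n * rad n x‖ₑ ^ (m : ℝ) ∂mI
      ≤ ∫⁻ x, ENNReal.ofReal ((m.factorial : ℝ) *
          (Real.exp (∑ n ∈ F, a n * rad n x) + Real.exp (∑ n ∈ F, (-a n) * rad n x))) ∂mI := by
        apply lintegral_mono
        intro x
        have h := pow_le m (∑ n ∈ F, a n * rad n x)
        rw [hneg x] at h
        have h3 : ‖∑ n ∈ F, a n * rad n x‖ₑ ^ (m : ℝ) =
            ENNReal.ofReal (|∑ n ∈ F, a n * rad n x| ^ m) := by
          rw [ENNReal.rpow_natCast, Real.enorm_eq_ofReal_abs,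
            ENNReal.ofReal_pow (abs_nonneg _)]
        simp only [h3]
        exact ENNReal.ofReal_le_ofReal h
    _ = ENNReal.ofReal (∫ x, (m.factorial : ℝ) *
          (Real.exp (∑ n ∈ F, a n * rad n x) + Real.exp (∑ n ∈ F, (-a n) * rad n x)) ∂mI) := by
        rw [ofReal_integral_eq_lintegral_ofReal hint]
        filter_upwards with x
        positivity
    _ ≤ ENNReal.ofReal ((m.factorial : ℝ) * (2 * Real.exp (1 / 2))) := by
        apply ENNReal.ofReal_le_ofReal
        rw [integral_const_mul]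
        apply mul_le_mul_of_nonneg_left _ (by positivity)
        rw [integral_add (exp_integrable F a) (exp_integrable F (fun n => -a n))]
        have h1 := exp_integral_le hWAL F a ha
        have h2 := exp_integral_le hWAL F (fun n => -a n) (by simpa using ha)
        linarith

theorem norm_le (hWAL : StWAL) (m : ℕ) (hm : 0 < m) (F : Finset ℕ) (a : ℕ → ℝ)
    (ha : ∑ n ∈ F, a n ^ 2 ≤ 1) :
    eLpNorm (fun x => ∑ n ∈ F, a n * rad n x) (m : ℝ≥0∞) mI ≤
      ENNReal.ofReal (((m.factorial : ℝ) * (2 * Real.exp (1 / 2))) ^ (1 / (m : ℝ))) := by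
  have hm0 : (m : ℝ≥0∞) ≠ 0 := by
    simpa using hm.ne'
  have hmt : (m : ℝ≥0∞) ≠ ∞ := ENNReal.natCast_ne_top m
  rw [eLpNorm_eq_lintegral_rpow_enorm_toReal hm0 hmt]
  rw [ENNReal.toReal_natCast]
  rw [← ENNReal.ofReal_rpow_of_nonneg (by positivity) (by positivity)]
  exact ENNReal.rpow_le_rpow (lin_le hWAL m F a ha) (by positivity)

theorem hKHI (hWAL : StWAL) : StKHI := by
  intro p hp1 hpt
  have hmpos : 0 < ⌈p.toReal⌉₊ := by
    apply Nat.ceil_pos.mpr
    exact ENNReal.toReal_pos (ne_of_gt (lt_of_lt_of_le one_pos hp1)) hpt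
  have hpm : p ≤ ((⌈p.toReal⌉₊ : ℕ) : ℝ≥0∞) := by
    rw [← ENNReal.ofReal_toReal hpt, ← ENNReal.ofReal_natCast]
    apply ENNReal.ofReal_le_ofReal
    have := Nat.le_ceil p.toReal
    simpa [ENNReal.toReal_ofReal ENNReal.toReal_nonneg] using this
  generalize ⌈p.toReal⌉₊ = m at hmpos hpm
  set C : ℝ := ((m.factorial : ℝ) * (2 * Real.exp (1 / 2))) ^ (1 / (m : ℝ)) with hC
  have hC0 : 0 ≤ C := by positivity
  refine ⟨C, hC0, ?_⟩
  intro F a
  set σ : ℝ := Real.sqrt (∑ n ∈ F, a n ^ 2) with hσ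
  have hs0 : 0 ≤ ∑ n ∈ F, a n ^ 2 := Finset.sum_nonneg (fun n _ => sq_nonneg _)
  have hσ0 : 0 ≤ σ := Real.sqrt_nonneg _
  rcases eq_or_lt_of_le hσ0 with h0 | hpos
  · have hz : ∑ n ∈ F, a n ^ 2 = 0 := by
      have := Real.sqrt_eq_zero hs0
      exact this.mp h0.symm
    have hz2 : ∀ n ∈ F, a n = 0 := by
      intro n hn
      have := (Finset.sum_eq_zero_iff_of_nonneg (fun n _ => sq_nonneg (a n))).mp hz n hn
      exact pow_eq_zero_iff (two_ne_zero) |>.mp this
    have hf : (fun x => ∑ n ∈ F, a n * rad n x) = fun _ => (0 : ℝ) := by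
      funext x
      apply Finset.sum_eq_zero
      intro n hn
      rw [hz2 n hn, zero_mul]
    rw [hf]
    simp
  · have hf : (fun x => ∑ n ∈ F, a n * rad n x) =
        σ • (fun x => ∑ n ∈ F, (a n / σ) * rad n x) := by
      funext x
      simp only [Pi.smul_apply, smul_eq_mul]
      rw [Finset.mul_sum]
      apply Finset.sum_congr rfl
      intro n _
      field_simp
    rw [hf, eLpNorm_const_smul]
    have hb : ∑ n ∈ F, (a n / σ) ^ 2 ≤ 1 := by
      have : ∑ n ∈ F, (a n / σ) ^ 2 = (∑ n ∈ F, a n ^ 2) / σ ^ 2 := by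
        rw [Finset.sum_div]
        exact Finset.sum_congr rfl (fun n _ => by rw [div_pow])
      rw [this, hσ, Real.sq_sqrt hs0]
      exact div_self_le_one _
    have h1 := norm_le hWAL m hmpos F (fun n => a n / σ) hb
    have h2 : eLpNorm (fun x => ∑ n ∈ F, (a n / σ) * rad n x) p mI ≤ ENNReal.ofReal C :=
      (eLpNorm_le_eLpNorm_of_exponent_le hpm
        (sum_meas F (fun n => a n / σ)).aestronglyMeasurable).trans h1
    rw [Real.enorm_eq_ofReal hσ0, mul_comm C σ, ENNReal.ofReal_mul hσ0]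
    exact mul_le_mul_right h2 _

end Pool.Agent.Helper26.RU
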